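import Mathlib

/-! # SDET: agreement on a small grid of integer matrices implies the polynomial identity -/

open MvPolynomial Finset

namespace Pool.SDF

variable {K : Type*} [Field K]

theorem totalDegree_prod_le {σ : Type*} {s : ℕ} (f : Fin s → MvPolynomial σ K) {d : ℕ}
    (hf : ∀ i, (f i).totalDegree ≤ d) : (∏ i, f i).totalDegree ≤ s * d := by
  refine (totalDegree_finsetProd _ _).trans ?_
  refine (Finset.sum_le_card_nsmul _ _ d fun i _ => hf i).trans ?_
  simp

theorem totalDegree_det_le {σ : Type*} {s d : ℕ} (A : Matrix (Fin s) (Fin s) (MvPolynomial σ K))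
    (hA : ∀ i j, (A i j).totalDegree ≤ d) : A.det.totalDegree ≤ s * d := by
  rw [Matrix.det_apply']
  refine totalDegree_finsetSum_le fun e _ => ?_
  refine (totalDegree_mul _ _).trans ?_
  have h1 : (((Equiv.Perm.sign e : ℤ) : MvPolynomial σ K)).totalDegree = 0 := by
    rcases Int.units_eq_one_or (Equiv.Perm.sign e) with h | h <;> rw [h] <;> simp
  rw [h1, zero_add]
  exact totalDegree_prod_le _ fun i => hA _ _

theorem totalDegree_permanent_le {σ : Type*} {s d : ℕ}
    (A : Matrix (Fin s) (Fin s) (MvPolynomial σ K))
    (hA : ∀ i j, (A i j).totalDegree ≤ d) : A.permanent.totalDegree ≤ s * d := by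
  rw [Matrix.permanent]
  refine totalDegree_finsetSum_le fun σ _ => ?_
  exact totalDegree_prod_le _ fun i => hA _ _

theorem grid_identity [CharZero K] {σ : Type*} [Finite σ] {m : ℕ} (p : MvPolynomial σ K)
    (hp : p.totalDegree ≤ m) (h : ∀ M : σ → ℕ, (∀ x, M x ≤ m) → eval (fun x => (M x : K)) p = 0) :
    p = 0 := by
  classical
  refine eq_zero_of_eval_zero_at_prod_finset p
    (fun _ => (Finset.range (m + 1)).image (fun k : ℕ => (k : K))) ?_ ?_
  · intro i
    rw [Finset.card_image_of_injective _ Nat.cast_injective, Finset.card_range]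
    exact Nat.lt_succ_of_le ((degreeOf_le_totalDegree p i).trans hp)
  · intro x hx
    have : ∀ i, ∃ k : ℕ, k ≤ m ∧ (k : K) = x i := by
      intro i
      obtain ⟨k, hk, hk2⟩ := Finset.mem_image.1 (hx i)
      exact ⟨k, Nat.lt_succ_iff.1 (Finset.mem_range.1 hk), hk2⟩
    choose M hM1 hM2 using this
    have := h M hM1
    rw [← this]
    congr 1
    have : x = fun x => (M x : K) := by
      funext i; exact (hM2 i).symm
    rw [this]

/-- If the permanent of every `n × n` matrix with entries in `{0, ..., m}` is the sum of `r`
determinants of matrices of size at most `m` whose entries are affine functions of the entries of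
the given matrix, then this holds as an identity of polynomials. -/
theorem functional_to_identity [CharZero K] {n m r : ℕ} (hnm : n ≤ m) (s : Fin r → ℕ)
    (hs : ∀ i, s i ≤ m)
    (A : ∀ i, Matrix (Fin (s i)) (Fin (s i)) (MvPolynomial (Fin n × Fin n) K))
    (hA : ∀ i p q, (A i p q).totalDegree ≤ 1)
    (h : ∀ M : Matrix (Fin n) (Fin n) ℕ, (∀ i j, M i j ≤ m) →
      (M.permanent : K) = ∑ i, ((A i).map (eval fun p => (M p.1 p.2 : K))).det) :
    (Matrix.of fun i j => (X (i, j) : MvPolynomial (Fin n × Fin n) K)).permanent =
      ∑ i, (A i).det := by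
  rw [← sub_eq_zero]
  refine grid_identity (m := m) _ ?_ ?_
  · refine (totalDegree_sub _ _).trans (max_le ?_ ?_)
    · refine (totalDegree_permanent_le (d := 1) _ fun i j => ?_).trans (by omega)
      simp
    · refine totalDegree_finsetSum_le fun i _ => ?_
      exact (totalDegree_det_le (d := 1) _ (hA i)).trans (by simpa using hs i)
  · intro M hM
    have h1 := h (Matrix.of fun i j => M (i, j)) (fun i j => hM _)
    rw [map_sub, map_sum]
    have h2 : eval (fun x => (M x : K))
        (Matrix.of fun i j => (X (i, j) : MvPolynomial (Fin n × Fin n) K)).permanent =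
        ((Matrix.of fun i j => M (i, j)).permanent : K) := by
      rw [Matrix.permanent, Matrix.permanent, map_sum]
      push_cast
      refine Finset.sum_congr rfl fun σ _ => ?_
      rw [map_prod]
      refine Finset.prod_congr rfl fun i _ => ?_
      simp
    rw [h2, h1, sub_eq_zero]
    refine Finset.sum_congr rfl fun i _ => ?_
    rw [RingHom.map_det]
    rfl

end Pool.SDF
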