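import Pool.Agent.Helper55.SD.Defs
import Pool.Agent.Helper90.SD.U

/-! # SDET, side (U): definitions and the reduction of (L) to (U) -/

open MvPolynomial Finset
open scoped BigOperators ENNReal

namespace Pool.SDU

universe u
variable {K : Type u} [Field K]

/-- the span of the `k × k` minors -/
noncomputable def Mn {σ : Type*} {m : ℕ} (k : ℕ)
    (A : Matrix (Fin m) (Fin m) (MvPolynomial σ K)) : Submodule K (MvPolynomial σ K) :=
  Submodule.span K (Set.range fun fg : (Fin k ↪o Fin m) × (Fin k ↪o Fin m) =>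
    (A.submatrix fg.1 fg.2).det)

/-- multiples of degree at most `l`, with further free variables `E` -/
noncomputable def Sl {σ : Type*} (E : Type*) (l : ℕ) (V : Submodule K (MvPolynomial σ K)) :
    Submodule K (MvPolynomial (σ ⊕ E) K) :=
  Submodule.span K {f | ∃ (μ : (σ ⊕ E) →₀ ℕ) (g : MvPolynomial σ K), g ∈ V ∧ μ.degree ≤ l ∧
    f = monomial μ 1 * rename Sum.inl g}

/-- arbitrary minors belong to the span of the minors with increasing rows and columns -/
theorem submatrix_det_mem {σ : Type*} {m k : ℕ} (A : Matrix (Fin m) (Fin m) (MvPolynomial σ K))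
    (f g : Fin k → Fin m) : (A.submatrix f g).det ∈ Mn k A := by
  rcases Pool.Agent.Helper90.SD.det_submatrix_mem A f g with h | ⟨f', g', h | h⟩
  · rw [h]; exact Submodule.zero_mem _
  · rw [h]; exact Submodule.subset_span ⟨(f', g'), rfl⟩
  · rw [h]; exact Submodule.neg_mem _ (Submodule.subset_span ⟨(f', g'), rfl⟩)

section
variable {σ E : Type*}

theorem Sl_mono (l : ℕ) {V W : Submodule K (MvPolynomial σ K)} (h : V ≤ W) :
    Sl E l V ≤ Sl E l W := by
  refine Submodule.span_mono ?_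
  rintro f ⟨μ, g, hg, hμ, rfl⟩
  exact ⟨μ, g, h hg, hμ, rfl⟩

theorem mem_Sl {l : ℕ} {V : Submodule K (MvPolynomial σ K)} {μ : (σ ⊕ E) →₀ ℕ}
    {g : MvPolynomial σ K} (hg : g ∈ V) (hμ : μ.degree ≤ l) :
    monomial μ 1 * rename Sum.inl g ∈ Sl E l V :=
  Submodule.subset_span ⟨μ, g, hg, hμ, rfl⟩

theorem Sl_iSup_le {ι : Type*} (l : ℕ) (V : ι → Submodule K (MvPolynomial σ K)) :
    Sl E l (⨆ i, V i) ≤ ⨆ i, Sl E l (V i) := by
  refine Submodule.span_le.2 ?_
  rintro f ⟨μ, g, hg, hμ, rfl⟩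
  refine Submodule.iSup_induction V (motive := fun g => monomial μ (1 : K) * rename Sum.inl g ∈
    ((⨆ i, Sl E l (V i) : Submodule K (MvPolynomial (σ ⊕ E) K)) : Set _)) hg ?_ ?_ ?_
  · intro i x hx
    exact (le_iSup (fun i => Sl E l (V i)) i) (mem_Sl hx hμ)
  · simp
  · intro x y hx hy
    rw [map_add, mul_add]
    exact Submodule.add_mem _ hx hy

/-- span of a set of generators -/
theorem Sl_span (l : ℕ) (S : Set (MvPolynomial σ K)) :
    Sl E l (Submodule.span K S) = Submodule.span K {f | ∃ (μ : (σ ⊕ E) →₀ ℕ),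
      ∃ g ∈ S, μ.degree ≤ l ∧ f = monomial μ 1 * rename Sum.inl g} := by
  apply le_antisymm
  · refine Submodule.span_le.2 ?_
    rintro f ⟨μ, g, hg, hμ, rfl⟩
    refine Submodule.span_induction (p := fun g _ => monomial μ (1 : K) * rename Sum.inl g ∈
      ((Submodule.span K {f | ∃ (μ : (σ ⊕ E) →₀ ℕ),
        ∃ g ∈ S, μ.degree ≤ l ∧ f = monomial μ 1 * rename Sum.inl g} :
        Submodule K (MvPolynomial (σ ⊕ E) K)) : Set _)) ?_ ?_ ?_ ?_ hg
    · intro x hx
      exact Submodule.subset_span ⟨μ, x, hx, hμ, rfl⟩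
    · simp
    · intro x y _ _ hx hy
      rw [map_add, mul_add]
      exact Submodule.add_mem _ hx hy
    · intro a x _ hx
      rw [map_smul, mul_smul_comm]
      exact Submodule.smul_mem _ a hx
  · refine Submodule.span_mono ?_
    rintro f ⟨μ, g, hg, hμ, rfl⟩
    exact ⟨μ, g, Submodule.subset_span hg, hμ, rfl⟩

theorem finite_degree_le (τ : Type*) [Finite τ] (l : ℕ) : {μ : τ →₀ ℕ | μ.degree ≤ l}.Finite := by
  classical
  haveI := Fintype.ofFinite τ
  refine Set.Finite.subset (Finset.finite_toSet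
    ((Finset.range (l + 1)).biUnion fun e => (Finset.univ : Finset τ).finsuppAntidiag e)) ?_
  intro μ hμ
  simp only [Finset.coe_biUnion, Set.mem_iUnion, Finset.mem_coe, Finset.mem_range]
  refine ⟨μ.degree, Nat.lt_succ_of_le hμ, ?_⟩
  rw [Finset.mem_finsuppAntidiag]
  refine ⟨?_, by simp⟩
  rw [Finsupp.degree_eq_sum]

theorem Sl_finite [Finite σ] [Finite E] (l : ℕ) (V : Submodule K (MvPolynomial σ K))
    (hV : V.FG) : Module.Finite K (Sl E l V) := by
  obtain ⟨S, hS⟩ := hV
  rw [← hS, Sl_span]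
  refine Module.Finite.iff_fg.2 (Submodule.fg_span ?_)
  refine Set.Finite.subset ((Set.Finite.prod (finite_degree_le (σ ⊕ E) l) S.finite_toSet).image
    (fun x => monomial x.1 (1 : K) * rename Sum.inl x.2)) ?_
  rintro f ⟨μ, g, hg, hμ, rfl⟩
  exact ⟨(μ, g), ⟨hμ, hg⟩, rfl⟩

theorem Mn_fg {m k : ℕ} (A : Matrix (Fin m) (Fin m) (MvPolynomial σ K)) : (Mn k A).FG :=
  Submodule.fg_span (Set.finite_range _)

theorem finrank_iSup_le {V : Type*} [AddCommGroup V] [Module K V] {r : ℕ}
    (W : Fin r → Submodule K V) (hW : ∀ i, Module.Finite K (W i)) :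
    Module.finrank K (⨆ i, W i : Submodule K V) ≤ ∑ i, Module.finrank K (W i) := by
  induction r with
  | zero => simp
  | succ r ih =>
    rw [Fin.sum_univ_succ]
    have h1 : (⨆ i, W i) = W 0 ⊔ ⨆ i : Fin r, W i.succ := by
      apply le_antisymm
      · refine iSup_le fun i => ?_
        refine Fin.cases ?_ (fun i => ?_) i
        · exact le_sup_left
        · exact (le_iSup (fun i : Fin r => W i.succ) i).trans le_sup_right
      · refine sup_le (le_iSup W 0) (iSup_le fun i => le_iSup W i.succ)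
    rw [h1]
    haveI := hW 0
    haveI : ∀ i : Fin r, Module.Finite K (W i.succ) := fun i => hW i.succ
    refine (Submodule.finrank_add_le_finrank_add_finrank _ _).trans ?_
    exact Nat.add_le_add_left (ih _ fun i => hW i.succ) _

end

/-- the left side spaces are contained in the right side spaces -/
theorem Vl_le_Sl {σ κ B E : Type*} [Fintype B] (g : κ → MvPolynomial σ K) (l : ℕ)
    (V : Submodule K (MvPolynomial (B × σ) K))
    (hV : ∀ k : B → κ, ∏ b, rename (fun v => (b, v)) (g (k b)) ∈ V) :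
    Pool.SDL.Vl B E g l ≤ Sl E l V := by
  refine Submodule.span_le.2 ?_
  rintro f ⟨μ, k, hμ, rfl⟩
  have h : ∏ b, rename (fun v => (Sum.inl (b, v) : (B × σ) ⊕ E)) (g (k b)) =
      rename Sum.inl (∏ b, rename (fun v => (b, v)) (g (k b))) := by
    rw [map_prod]
    refine Finset.prod_congr rfl fun b _ => ?_
    rw [rename_rename]
    rfl
  rw [h]
  exact mem_Sl (hV k) hμ

end Pool.SDU
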